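import Pool.Agent.MP_429080_ag.Defs

/-! Dimension computations. -/

namespace Pool.Agent.MP_429080_ag

open MvPolynomial

variable {σ τ : Type} [Fintype σ] [Fintype τ]

theorem mem_van {S : Set (σ → ℂ)} {f : MvPolynomial σ ℂ} :
    f ∈ vanishingIdeal ℂ S ↔ ∀ x ∈ S, eval x f = 0 := Iff.rfl

/-- The linear form attached to a functional. -/
noncomputable def lin (g : (τ → ℂ) →ₗ[ℂ] ℂ) : MvPolynomial τ ℂ := by
  classical exact ∑ j, C (g (Pi.single j 1)) * X j

theorem eval_lin (g : (τ → ℂ) →ₗ[ℂ] ℂ) (u : τ → ℂ) : eval u (lin g) = g u := by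
  classical
  have h : u = ∑ j, u j • (Pi.single j 1 : τ → ℂ) := by
    funext i
    simp [Finset.sum_apply, Pi.single_apply]
  conv_rhs => rw [h]
  simp only [lin, map_sum, map_mul, eval_C, eval_X, map_smul, smul_eq_mul]
  exact Finset.sum_congr rfl fun j _ => by rw [mul_comm]

/-- Pull back of polynomials along a linear map. -/
noncomputable def pull (κ : (τ → ℂ) →ₗ[ℂ] (σ → ℂ)) : MvPolynomial σ ℂ →ₐ[ℂ] MvPolynomial τ ℂ :=
  aeval fun i => lin ((LinearMap.proj i).comp κ)

omit [Fintype σ] in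
theorem eval_pull (κ : (τ → ℂ) →ₗ[ℂ] (σ → ℂ)) (u : τ → ℂ) (f : MvPolynomial σ ℂ) :
    eval u (pull κ f) = eval (κ u) f := by
  induction f using MvPolynomial.induction_on with
  | C a => simp [pull]
  | add p q hp hq => simp [hp, hq]
  | mul_X p i hp =>
    rw [map_mul, map_mul, map_mul, hp, eval_X]
    simp [pull, eval_lin]

theorem pull_surjective {κ : (τ → ℂ) →ₗ[ℂ] (σ → ℂ)} (hκ : Function.Injective κ) :
    Function.Surjective (pull κ) := by
  obtain ⟨ρ, hρ⟩ := κ.exists_leftInverse_of_injective (LinearMap.ker_eq_bot.2 hκ)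
  intro f
  refine ⟨pull ρ f, MvPolynomial.funext fun u => ?_⟩
  rw [eval_pull, eval_pull]
  congr 2
  exact LinearMap.congr_fun hρ u

omit [Fintype τ] in
theorem dim_poly [Finite τ] : ringKrullDim (MvPolynomial τ ℂ) = Nat.card τ := by
  rw [MvPolynomial.ringKrullDim_of_isNoetherianRing, ringKrullDim_eq_zero_of_field, zero_add]

/-- Restriction of functions on S to a linear subspace contained in S. -/
theorem exists_restrict {S : Set (σ → ℂ)} {κ : (τ → ℂ) →ₗ[ℂ] (σ → ℂ)} (hκ : Function.Injective κ)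
    (hS : ∀ u, κ u ∈ S) : ∃ ψ : (MvPolynomial σ ℂ ⧸ vanishingIdeal ℂ S) →+* MvPolynomial τ ℂ,
      Function.Surjective ψ ∧ ∀ f, ψ (Ideal.Quotient.mk _ f) = pull κ f := by
  have h : ∀ f ∈ vanishingIdeal ℂ S, (pull κ).toRingHom f = 0 := fun f hf =>
    MvPolynomial.funext fun u => by
      rw [map_zero]
      exact (eval_pull κ u f).trans (mem_van.1 hf _ (hS u))
  exact ⟨Ideal.Quotient.lift _ _ h, Ideal.Quotient.lift_surjective_of_surjective _ _
    (pull_surjective hκ), fun f => rfl⟩

omit [Fintype σ] in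
theorem affDim_succ_le [Finite σ] {S : Set (σ → ℂ)} {r : MvPolynomial σ ℂ} (hr : r ≠ 0)
    (hS : r ∈ vanishingIdeal ℂ S) : affDim S + 1 ≤ Nat.card σ := by
  rw [← dim_poly]
  exact ringKrullDim_succ_le_of_surjective (Ideal.Quotient.mk _) Ideal.Quotient.mk_surjective
    (mem_nonZeroDivisors_of_ne_zero hr) (Ideal.Quotient.eq_zero_iff_mem.2 hS)

/-- A finitely generated algebra that embeds in a polynomial ring has at most its dimension. -/
theorem dim_le_of_injective {A : Type} [CommRing A] [Nontrivial A] [Algebra ℂ A]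
    [Algebra.FiniteType ℂ A] {m : ℕ} (g : A →ₐ[ℂ] MvPolynomial (Fin m) ℂ)
    (hg : Function.Injective g) : ringKrullDim A ≤ m := by
  obtain ⟨s, h, hinj, hint⟩ := exists_integral_inj_algHom_of_fg ℂ A
  have h1 : ringKrullDim A ≤ ringKrullDim (MvPolynomial (Fin s) ℂ) := by
    let := h.toRingHom.toAlgebra
    have : Algebra.IsIntegral (MvPolynomial (Fin s) ℂ) A := ⟨hint⟩
    refine Order.krullDim_le_of_strictMono
      (PrimeSpectrum.comap (algebraMap (MvPolynomial (Fin s) ℂ) A)) fun P Q hPQ => ?_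
    exact Ideal.IsIntegral.comap_lt_comap (R := MvPolynomial (Fin s) ℂ) (I := P.asIdeal)
      (J := Q.asIdeal) hPQ
  have h2 := trdeg_le_of_injective (g.comp h) (hg.comp hinj)
  rw [MvPolynomial.trdeg_of_isDomain, MvPolynomial.trdeg_of_isDomain] at h2
  have h3 : s ≤ m := by simpa using h2
  rw [dim_poly] at h1
  refine h1.trans ?_
  simpa using h3

omit [Fintype σ] in
theorem hasDerivAt_eval [Fintype σ] (f : MvPolynomial σ ℂ) (x v : σ → ℂ) :
    HasDerivAt (fun e : ℂ => eval (x + e • v) f) (∑ i, eval x (pderiv i f) * v i) 0 := by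
  classical
  induction f using MvPolynomial.induction_on with
  | C a => simpa using hasDerivAt_const (0 : ℂ) a
  | add p q hp hq =>
    simp only [map_add, add_mul, Finset.sum_add_distrib]
    exact hp.add hq
  | mul_X p i hp =>
    have h1 : HasDerivAt (fun e : ℂ => x i + e * v i) (v i) 0 := by
      simpa using ((hasDerivAt_id (0 : ℂ)).mul_const (v i)).const_add (x i)
    have h2 := hp.mul h1
    have h3 : (fun e : ℂ => eval (x + e • v) (p * X i))
        = (fun e : ℂ => eval (x + e • v) p) * fun e : ℂ => x i + e * v i := by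
      funext e
      simp
    rw [h3]
    refine h2.congr_deriv ?_
    have h4 : ∀ j, eval x (pderiv j (p * X i)) * v j
        = eval x (pderiv j p) * v j * x i + if j = i then eval x p * v i else 0 := by
      intro j
      rw [Derivation.leibniz, pderiv_X]
      by_cases hj : j = i
      · subst hj
        simp
        ring
      · simp [hj, Ne.symm hj]
        ring
    simp only [h4, Finset.sum_add_distrib, Finset.sum_ite_eq', Finset.mem_univ, if_true,
      ← Finset.sum_mul]
    simp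

theorem exists_line_poly (f : MvPolynomial σ ℂ) (x v : σ → ℂ) :
    ∃ q : Polynomial ℂ, ∀ s, q.eval s = eval (x + s • v) f := by
  induction f using MvPolynomial.induction_on with
  | C a => exact ⟨Polynomial.C a, fun s => by simp⟩
  | add p q hp hq =>
    obtain ⟨p', hp⟩ := hp
    obtain ⟨q', hq⟩ := hq
    exact ⟨p' + q', fun s => by simp [hp, hq]⟩
  | mul_X p i hp =>
    obtain ⟨p', hp⟩ := hp
    exact ⟨p' * (Polynomial.C (x i) + Polynomial.X * Polynomial.C (v i)), fun s => by simp [hp, mul_comm (v i) s]⟩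

theorem le_of_succ_le {a : WithBot ℕ∞} {n : ℕ} (h : a + 1 ≤ (n + 1 : ℕ)) : a ≤ n := by
  induction a using WithBot.recBotCoe with
  | bot => exact bot_le
  | coe a =>
    have h1 : a + 1 ≤ ((n : ℕ∞) + 1) := by exact_mod_cast h
    have h2 : a ≤ n := (ENat.add_le_add_iff_right (by simp)).1 h1
    exact_mod_cast h2

/-- Directions of lines in C are tangent. -/
theorem mem_tangent_of_line {C : Set (σ → ℂ)} {x v : σ → ℂ} (h : ∀ e : ℂ, x + e • v ∈ C) :
    v ∈ tangent C x := by
  have key : ∀ f ∈ vanishingIdeal ℂ C, ∑ i, eval x (pderiv i f) * v i = 0 := by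
    intro f hf
    have h2 : HasDerivAt (fun e : ℂ => eval (x + e • v) f) 0 0 :=
      (hasDerivAt_const (0 : ℂ) (0 : ℂ)).congr_of_eventuallyEq
        (Filter.Eventually.of_forall fun e => mem_van.1 hf (x + e • v) (h e))
    exact (hasDerivAt_eval f x v).unique h2
  exact key

/-- A hyperplane together with a line outside it. -/
theorem hyperplane_line {L : Set (Fin 5 → ℂ)} {l : (Fin 5 → ℂ) →ₗ[ℂ] ℂ} {w₀ : Fin 5 → ℂ}
    (h0 : l w₀ = 1) (hL : ∀ w, w ∈ L ↔ l w = 0 ∨ ∃ c : ℂ, w = c • w₀) :
    affDim L = 4 ∧ Submodule.span ℂ L = ⊤ ∧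
      ¬ ∃ f : MvPolynomial (Fin 5) ℂ, {w | eval w f = 0} = L := by
  have hsurj : Function.Surjective l := fun c => ⟨c • w₀, by simp [h0]⟩
  have hker : Module.finrank ℂ (LinearMap.ker l) = 4 := by
    have h1 := l.finrank_range_add_finrank_ker
    rw [LinearMap.range_eq_top.2 hsurj] at h1
    simp at h1
    omega
  let e : (Fin 4 → ℂ) ≃ₗ[ℂ] LinearMap.ker l :=
    LinearEquiv.ofFinrankEq _ _ (by simp [hker])
  let κ : (Fin 4 → ℂ) →ₗ[ℂ] (Fin 5 → ℂ) := (LinearMap.ker l).subtype.comp e.toLinearMap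
  have hκ : Function.Injective κ := Subtype.val_injective.comp e.injective
  have hlκ : ∀ u, l (κ u) = 0 := fun u => (e u).2
  obtain ⟨ρ, hρ⟩ := κ.exists_leftInverse_of_injective (LinearMap.ker_eq_bot.2 hκ)
  have hρ' : ∀ u, ρ (κ u) = u := fun u => LinearMap.congr_fun hρ u
  refine ⟨le_antisymm ?_ ?_, ?_, ?_⟩
  · let m : (Fin 5 → ℂ) →ₗ[ℂ] ℂ := ((LinearMap.proj 0).comp ρ) - (ρ w₀ 0) • l
    have hm : m w₀ = 0 := by simp [m, h0]
    have hr : lin l * lin m ≠ 0 := by
      refine mul_ne_zero (fun h => ?_) (fun h => ?_)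
      · have := eval_lin l w₀
        simp [h, h0] at this
      · have := eval_lin m (κ fun _ => 1)
        simp [h, m, hlκ, hρ'] at this
    have h1 := affDim_succ_le (S := L) hr (mem_van.2 fun w hw => by
      rw [map_mul, eval_lin, eval_lin]
      rcases (hL w).1 hw with h | ⟨c, rfl⟩
      · simp [h]
      · simp [hm])
    rw [Nat.card_eq_fintype_card, Fintype.card_fin] at h1
    exact le_of_succ_le (n := 4) h1
  · obtain ⟨ψ, hψ, -⟩ := exists_restrict (S := L) hκ fun u => (hL _).2 (Or.inl (hlκ u))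
    have h1 := ringKrullDim_le_of_surjective ψ hψ
    rw [dim_poly, Nat.card_eq_fintype_card, Fintype.card_fin] at h1
    exact h1
  · refine eq_top_iff.2 fun w _ => ?_
    have h1 : w = (w - l w • w₀) + l w • w₀ := by simp
    rw [h1]
    refine Submodule.add_mem _ (Submodule.subset_span ((hL _).2 (Or.inl ?_)))
      (Submodule.subset_span ((hL _).2 (Or.inr ⟨_, rfl⟩)))
    simp [h0]
  · rintro ⟨f, hf⟩
    let p : ℂ → ℂ → (Fin 5 → ℂ) := fun s t => w₀ + κ ![s, t, 0, 0]
    have hz : ∀ s t, eval (p s t) f = 0 ↔ s = 0 ∧ t = 0 := by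
      intro s t
      have h1 : eval (p s t) f = 0 ↔ p s t ∈ L := by rw [← hf]; rfl
      rw [h1, hL]
      have h2 : l (p s t) = 1 := by simp [p, h0, hlκ]
      constructor
      · rintro (h | ⟨c, hc⟩)
        · simp [h2] at h
        · have h3 : c = 1 := by
            rw [hc] at h2
            simpa [h0] using h2
          rw [h3, one_smul] at hc
          have h4 : κ ![s, t, 0, 0] = κ 0 := by simpa [p] using hc
          have h5 := hκ h4
          exact ⟨congrFun h5 0, congrFun h5 1⟩
      · rintro ⟨rfl, rfl⟩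
        refine Or.inr ⟨1, ?_⟩
        have : (![0, 0, 0, 0] : Fin 4 → ℂ) = 0 := by
          funext i
          fin_cases i <;> rfl
        simp [p, this]
    have hp : ∀ s t, p s t = (w₀ + t • κ ![0, 1, 0, 0]) + s • κ ![1, 0, 0, 0] := by
      intro s t
      have : (![s, t, 0, 0] : Fin 4 → ℂ) = t • ![0, 1, 0, 0] + s • ![1, 0, 0, 0] := by
        funext i
        fin_cases i <;> simp
      simp only [p, this, map_add, map_smul, add_assoc]
    have hconst : ∀ t, t ≠ 0 → eval (p 1 t) f = eval (p 0 t) f := by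
      intro t ht
      obtain ⟨q, hq'⟩ := exists_line_poly f (w₀ + t • κ ![0, 1, 0, 0]) (κ ![1, 0, 0, 0])
      have hq : ∀ s, q.eval s = eval (p s t) f := fun s => by rw [hp, hq']
      have hdeg : q.degree = 0 := by
        by_contra hne
        obtain ⟨s, hs⟩ := IsAlgClosed.exists_root q hne
        exact ht ((hz s t).1 ((hq s).symm.trans hs)).2
      rw [← hq, ← hq, Polynomial.eq_C_of_degree_eq_zero hdeg]
      simp
    have hc : ∀ s, Continuous fun t => eval (p s t) f := by
      intro s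
      simp only [hp]
      refine (MvPolynomial.continuous_eval f).comp
        (f := fun t : ℂ => w₀ + t • κ ![0, 1, 0, 0] + s • κ ![1, 0, 0, 0]) ?_
      fun_prop
    have h1 := Continuous.ext_on (dense_compl_singleton (0 : ℂ)) (hc 1) (hc 0)
      fun t ht => hconst t ht
    have h2 := congrFun h1 0
    rw [(hz 0 0).2 ⟨rfl, rfl⟩, hz] at h2
    exact one_ne_zero h2.1

end Pool.Agent.MP_429080_ag
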