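import Mathlib

/-!
Projective varieties over the complex numbers are described by their affine cones, subsets of
a coordinate space `σ → ℂ`.
-/

namespace Pool.Agent.MP_429080_ag

open MvPolynomial

variable {σ : Type} [Fintype σ]

/-- The dimension of a subset of affine space: the Krull dimension of its coordinate ring. -/
noncomputable def affDim (S : Set (σ → ℂ)) : WithBot ℕ∞ :=
  ringKrullDim (MvPolynomial σ ℂ ⧸ vanishingIdeal ℂ S)

/-- The Zariski tangent space of `C` at `x`: vectors killed by the differential at `x` of every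
polynomial vanishing on `C`. -/
noncomputable def tangent (C : Set (σ → ℂ)) (x : σ → ℂ) : Submodule ℂ (σ → ℂ) where
  carrier := {v | ∀ f ∈ vanishingIdeal ℂ C, ∑ i, eval x (pderiv i f) * v i = 0}
  zero_mem' := by simp
  add_mem' := by
    intro v w hv hw f hf
    simp only [Pi.add_apply, mul_add, Finset.sum_add_distrib, hv f hf, hw f hf, add_zero]
  smul_mem' := by
    intro c v hv f hf
    simp only [Pi.smul_apply, smul_eq_mul, mul_left_comm _ c, ← Finset.mul_sum, hv f hf, mul_zero]

/-- `C` is the affine cone over a smooth irreducible projective variety of dimension `n`. -/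
structure IsSmoothCone (C : Set (σ → ℂ)) (n : ℕ) : Prop where
  closed : zeroLocus ℂ (vanishingIdeal ℂ C) = C
  cone : ∀ (c : ℂ), ∀ x ∈ C, c • x ∈ C
  irreducible : (vanishingIdeal ℂ C).IsPrime
  dim : affDim C = n + 1
  smooth : ∀ x ∈ C, x ≠ 0 → Module.finrank ℂ (tangent C x) = n + 1

/-- Linear coordinates on the projective tangent space: `φ` maps `ℂ^n` isomorphically onto a
complement of the line through `x` in the tangent space of the cone at `x`. -/
def IsFrame (C : Set (σ → ℂ)) (x : σ → ℂ) {n : ℕ} (φ : (Fin n → ℂ) →ₗ[ℂ] (σ → ℂ)) : Prop :=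
  Function.Injective φ ∧ Disjoint (LinearMap.range φ) (ℂ ∙ x) ∧
    LinearMap.range φ ⊔ (ℂ ∙ x) = tangent C x

/-- The affine cone over the variety of lines through `x`, in the coordinates `φ`: the directions
`w` such that the span of `x` and `φ w` lies in `C`. -/
def lines (C : Set (σ → ℂ)) (x : σ → ℂ) {n : ℕ} (φ : (Fin n → ℂ) →ₗ[ℂ] (σ → ℂ)) :
    Set (Fin n → ℂ) :=
  {w | ∀ s t : ℂ, s • x + t • φ w ∈ C}

end Pool.Agent.MP_429080_ag
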