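import Pool.Agent.MP_429080_ag.Dim

/-! The Segre variety of a line and a projective four-space. -/

namespace Pool.Agent.MP_429080_ag

open MvPolynomial

/-- The cone of two by five matrices of rank at most one. -/
def segre : Set (Fin 2 × Fin 5 → ℂ) := {z | ∀ j k, z (0, j) * z (1, k) = z (0, k) * z (1, j)}

/-- The matrix with entries a i * b j. -/
def tens (a : Fin 2 → ℂ) (b : Fin 5 → ℂ) : Fin 2 × Fin 5 → ℂ := fun p => a p.1 * b p.2

theorem tens_mem (a : Fin 2 → ℂ) (b : Fin 5 → ℂ) : tens a b ∈ segre := fun j k => by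
  simp only [tens]
  ring

theorem exists_tens {z : Fin 2 × Fin 5 → ℂ} (hz : z ∈ segre) : ∃ a b, z = tens a b := by
  by_cases h : ∀ j, z (0, j) = 0
  · refine ⟨![0, 1], fun j => z (1, j), funext fun ⟨i, j⟩ => ?_⟩
    fin_cases i <;> simp [tens, h]
  · push Not at h
    obtain ⟨j, hj⟩ := h
    refine ⟨![1, z (1, j) / z (0, j)], fun k => z (0, k), funext fun ⟨i, k⟩ => ?_⟩
    fin_cases i
    · simp [tens]
    · have := hz j k
      simp only [tens, Fin.mk_one, Matrix.cons_val_one, Matrix.cons_val_fin_one]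
      field_simp
      linear_combination this

/-- The two by two minors. -/
noncomputable def minor (j k : Fin 5) : MvPolynomial (Fin 2 × Fin 5) ℂ :=
  X (0, j) * X (1, k) - X (0, k) * X (1, j)

theorem minor_mem (j k : Fin 5) : minor j k ∈ vanishingIdeal ℂ segre :=
  mem_van.2 fun z hz => by simp [minor, hz j k]

/-- The parametrisation by six affine coordinates. -/
noncomputable def par : MvPolynomial (Fin 2 × Fin 5) ℂ →ₐ[ℂ] MvPolynomial (Fin 6) ℂ :=
  aeval fun p => (if p.1 = 0 then 1 else X 0) * X p.2.succ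

theorem eval_par (u : Fin 6 → ℂ) (f : MvPolynomial (Fin 2 × Fin 5) ℂ) :
    eval u (par f) = eval (tens ![1, u 0] fun j => u j.succ) f := by
  induction f using MvPolynomial.induction_on with
  | C a => simp [par]
  | add p q hp hq => simp [hp, hq]
  | mul_X p i hp =>
    rw [map_mul, map_mul, map_mul, hp, eval_X]
    obtain ⟨i, j⟩ := i
    fin_cases i <;> simp [par, tens]

theorem van_eq_ker : vanishingIdeal ℂ segre = RingHom.ker par := by
  ext f
  rw [RingHom.mem_ker, mem_van]
  constructor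
  · intro h
    refine MvPolynomial.funext fun u => ?_
    rw [eval_par, map_zero]
    exact h _ (tens_mem _ _)
  · intro h z hz
    obtain ⟨a, b, rfl⟩ := exists_tens hz
    have h1 : ∀ s : ℂ, s ≠ 0 → eval (tens ![s, a 1] b) f = 0 := by
      intro s hs
      have h2 := eval_par (Fin.cons (a 1 / s) fun j => s * b j) f
      rw [h, map_zero] at h2
      rw [h2]
      congr 2
      funext ⟨i, j⟩
      fin_cases i
      · simp [tens]
      · simp only [tens, Fin.mk_one, Matrix.cons_val_one, Matrix.cons_val_fin_one, Fin.cons_zero,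
          Fin.cons_succ]
        field_simp
    have hc : Continuous fun s : ℂ => eval (tens ![s, a 1] b) f := by
      refine (MvPolynomial.continuous_eval f).comp (f := fun s : ℂ => tens ![s, a 1] b) ?_
      refine continuous_pi fun ⟨i, j⟩ => ?_
      fin_cases i
      · simp only [tens, Fin.zero_eta, Matrix.cons_val_zero]
        fun_prop
      · simp only [tens, Fin.mk_one, Matrix.cons_val_one]
        fun_prop
    have h3 := Continuous.ext_on (dense_compl_singleton (0 : ℂ)) hc continuous_const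
      fun s hs => h1 s hs
    have h4 := congrFun h3 (a 0)
    have h5 : ![a 0, a 1] = a := by
      funext i
      fin_cases i <;> rfl
    rwa [h5] at h4

theorem segre_prime : (vanishingIdeal ℂ segre).IsPrime := by
  rw [van_eq_ker]
  exact RingHom.ker_isPrime _

theorem segre_dim : affDim segre = 6 := by
  have := segre_prime
  refine le_antisymm ?_ ?_
  · have h : ∀ f ∈ vanishingIdeal ℂ segre, par f = 0 := fun f hf => by
      rwa [van_eq_ker] at hf
    refine dim_le_of_injective (m := 6) (Ideal.Quotient.liftₐ _ par h) ?_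
    refine (injective_iff_map_eq_zero _).2 fun f hf => ?_
    obtain ⟨f, rfl⟩ := Ideal.Quotient.mk_surjective f
    refine Ideal.Quotient.eq_zero_iff_mem.2 ?_
    rw [van_eq_ker]
    exact hf
  · let κ : (Fin 5 → ℂ) →ₗ[ℂ] (Fin 2 × Fin 5 → ℂ) :=
      { toFun := tens ![1, 0]
        map_add' := fun u v => funext fun p => by simp [tens, mul_add]
        map_smul' := fun c u => funext fun p => by simp [tens, mul_left_comm] }
    have hκ : Function.Injective κ := fun u v h => funext fun j => by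
      simpa [κ, tens] using congrFun h (0, j)
    obtain ⟨ψ, hψ, hψ'⟩ := exists_restrict (S := segre) hκ fun u => tens_mem _ _
    have hr : Ideal.Quotient.mk (vanishingIdeal ℂ segre) (X (1, 0)) ≠ 0 := fun h => by
      have := mem_van.1 (Ideal.Quotient.eq_zero_iff_mem.1 h) _ (tens_mem 1 1)
      simp [tens] at this
    have h1 := ringKrullDim_succ_le_of_surjective ψ hψ (mem_nonZeroDivisors_of_ne_zero hr) (by
      rw [hψ']
      refine MvPolynomial.funext fun u => ?_
      rw [eval_pull]
      simp [κ, tens])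
    rw [dim_poly, Nat.card_eq_fintype_card, Fintype.card_fin] at h1
    exact h1

theorem segre_span : Submodule.span ℂ segre = ⊤ := by
  refine eq_top_iff.2 fun z _ => ?_
  have h : z = tens ![1, 0] (fun j => z (0, j)) + tens ![0, 1] (fun j => z (1, j)) := by
    funext ⟨i, j⟩
    fin_cases i <;> simp [tens]
  rw [h]
  exact Submodule.add_mem _ (Submodule.subset_span (tens_mem _ _))
    (Submodule.subset_span (tens_mem _ _))

/-- Parametrisation of the tangent space at a ⊗ b. -/
def tp (a a' : Fin 2 → ℂ) (b : Fin 5 → ℂ) : ((Fin 5 → ℂ) × ℂ) →ₗ[ℂ] (Fin 2 × Fin 5 → ℂ) where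
  toFun q := fun p => a p.1 * q.1 p.2 + q.2 * (a' p.1 * b p.2)
  map_add' u v := funext fun p => by
    simp only [Prod.fst_add, Prod.snd_add, Pi.add_apply]
    ring
  map_smul' c u := funext fun p => by
    simp only [Prod.smul_fst, Prod.smul_snd, Pi.smul_apply, smul_eq_mul, RingHom.id_apply]
    ring

section

variable {a a' : Fin 2 → ℂ} {b : Fin 5 → ℂ} {k : Fin 5}

theorem tp_injective (ha : a 0 * a' 1 - a 1 * a' 0 = 1) (hb : b k ≠ 0) :
    Function.Injective (tp a a' b) := by
  refine (injective_iff_map_eq_zero _).2 fun ⟨β, c⟩ h => ?_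
  have h0 : ∀ j, a 0 * β j + c * (a' 0 * b j) = 0 := fun j => congrFun h (0, j)
  have h1 : ∀ j, a 1 * β j + c * (a' 1 * b j) = 0 := fun j => congrFun h (1, j)
  have hc : c * b k = 0 := by linear_combination a 0 * h1 k - a 1 * h0 k - c * b k * ha
  refine Prod.ext (funext fun j => ?_) ((mul_eq_zero.1 hc).resolve_right hb)
  change β j = 0
  linear_combination a' 1 * h0 j - a' 0 * h1 j - β j * ha

theorem tangent_eq (ha : a 0 * a' 1 - a 1 * a' 0 = 1) (hb : b k ≠ 0) :
    tangent segre (tens a b) = LinearMap.range (tp a a' b) := by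
  refine le_antisymm (fun v hv => ?_) ?_
  · have h : ∀ j, a 0 * b j * v (1, k) + v (0, j) * (a 1 * b k)
        - (a 0 * b k * v (1, j) + v (0, k) * (a 1 * b j)) = 0 := by
      intro j
      have h1 := hasDerivAt_eval (minor j k) (tens a b) v
      rw [hv _ (minor_mem j k)] at h1
      have hx : ∀ p, HasDerivAt (fun e : ℂ => tens a b p + e * v p) (v p) 0 := fun p => by
        simpa using ((hasDerivAt_id (0 : ℂ)).mul_const (v p)).const_add (tens a b p)
      have h2 := ((hx (0, j)).fun_mul (hx (1, k))).fun_sub ((hx (0, k)).fun_mul (hx (1, j)))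
      have h3 := h2.unique (h1.congr_of_eventuallyEq
        (Filter.Eventually.of_forall fun e => by simp [minor]))
      simp only [tens] at h3
      linear_combination h3
    refine ⟨(fun j => a' 1 * v (0, j) - a' 0 * v (1, j), (a 0 * v (1, k) - a 1 * v (0, k)) / b k),
      funext fun ⟨i, j⟩ => ?_⟩
    have hj := h j
    fin_cases i
    · change a 0 * (a' 1 * v (0, j) - a' 0 * v (1, j))
        + (a 0 * v (1, k) - a 1 * v (0, k)) / b k * (a' 0 * b j) = v (0, j)
      field_simp
      linear_combination a' 0 * hj + b k * v (0, j) * ha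
    · change a 1 * (a' 1 * v (0, j) - a' 0 * v (1, j))
        + (a 0 * v (1, k) - a 1 * v (0, k)) / b k * (a' 1 * b j) = v (1, j)
      field_simp
      linear_combination a' 1 * hj + b k * v (1, j) * ha
  · rintro _ ⟨⟨β, c⟩, rfl⟩
    have h : tp a a' b (β, c) = tens a β + tens (c • a') b := by
      funext p
      simp [tp, tens, mul_assoc]
    rw [h]
    refine Submodule.add_mem _ (mem_tangent_of_line fun e => ?_) (mem_tangent_of_line fun e => ?_)
    · have : tens a b + e • tens a β = tens a (b + e • β) := by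
        funext p
        simp only [tens, Pi.add_apply, Pi.smul_apply, smul_eq_mul]
        ring
      rw [this]
      exact tens_mem _ _
    · have : tens a b + e • tens (c • a') b = tens (a + e • c • a') b := by
        funext p
        simp only [tens, Pi.add_apply, Pi.smul_apply, smul_eq_mul]
        ring
      rw [this]
      exact tens_mem _ _

theorem line_iff (ha : a 0 * a' 1 - a 1 * a' 0 = 1) (hb : b k ≠ 0) (β : Fin 5 → ℂ) (c : ℂ) :
    (∀ s t : ℂ, s • tens a b + t • tp a a' b (β, c) ∈ segre) ↔ c = 0 ∨ ∃ μ : ℂ, β = μ • b := by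
  constructor
  · intro h
    have h1 := h 0 1
    rw [zero_smul, one_smul, zero_add] at h1
    by_cases hc : c = 0
    · exact Or.inl hc
    · refine Or.inr ⟨β k / b k, funext fun j => ?_⟩
      have h2 : (a 0 * β j + c * (a' 0 * b j)) * (a 1 * β k + c * (a' 1 * b k))
        = (a 0 * β k + c * (a' 0 * b k)) * (a 1 * β j + c * (a' 1 * b j)) := h1 j k
      have h3 : c * (β j * b k - β k * b j) = 0 := by
        linear_combination h2 - c * (β j * b k - β k * b j) * ha
      have h4 := (mul_eq_zero.1 h3).resolve_left hc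
      simp only [Pi.smul_apply, smul_eq_mul]
      field_simp
      linear_combination h4
  · rintro (rfl | ⟨μ, rfl⟩) s t
    · have : s • tens a b + t • tp a a' b (β, 0) = tens a (s • b + t • β) := by
        funext p
        simp only [tens, tp, Pi.add_apply, Pi.smul_apply, smul_eq_mul, LinearMap.coe_mk,
          AddHom.coe_mk]
        ring
      rw [this]
      exact tens_mem _ _
    · have : s • tens a b + t • tp a a' b (μ • b, c) = tens ((s + t * μ) • a + (t * c) • a') b := by
        funext p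
        simp only [tens, tp, Pi.add_apply, Pi.smul_apply, smul_eq_mul, LinearMap.coe_mk,
          AddHom.coe_mk]
        ring
      rw [this]
      exact tens_mem _ _

end

theorem exists_data {x : Fin 2 × Fin 5 → ℂ} (hx : x ∈ segre) (h0 : x ≠ 0) :
    ∃ (a a' : Fin 2 → ℂ) (b : Fin 5 → ℂ) (k : Fin 5), x = tens a b ∧
      a 0 * a' 1 - a 1 * a' 0 = 1 ∧ b k ≠ 0 := by
  obtain ⟨a, b, rfl⟩ := exists_tens hx
  obtain ⟨⟨i, k⟩, hp⟩ := Function.ne_iff.1 h0
  have h1 : a i ≠ 0 := left_ne_zero_of_mul hp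
  have h2 : b k ≠ 0 := right_ne_zero_of_mul hp
  fin_cases i
  · exact ⟨a, ![0, (a 0)⁻¹], b, k, rfl, by simpa using mul_inv_cancel₀ h1, h2⟩
  · exact ⟨a, ![-(a 1)⁻¹, 0], b, k, rfl, by simpa using mul_inv_cancel₀ h1, h2⟩

theorem segre_smooth : IsSmoothCone segre 5 where
  closed := by
    refine le_antisymm (fun z hz j k => ?_) (zeroLocus_vanishingIdeal_le _)
    have := hz _ (minor_mem j k)
    simpa [minor, sub_eq_zero] using this
  cone := fun c x hx j k => by
    simp only [Pi.smul_apply, smul_eq_mul]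
    linear_combination c ^ 2 * hx j k
  irreducible := segre_prime
  dim := segre_dim
  smooth := fun x hx h0 => by
    obtain ⟨a, a', b, k, rfl, ha, hb⟩ := exists_data hx h0
    rw [tangent_eq ha hb, LinearMap.finrank_range_of_inj (tp_injective ha hb)]
    simp

theorem exists_frame {x : Fin 2 × Fin 5 → ℂ} (hx : x ∈ segre) (h0 : x ≠ 0) :
    ∃ φ : (Fin 5 → ℂ) →ₗ[ℂ] (Fin 2 × Fin 5 → ℂ), IsFrame segre x φ := by
  obtain ⟨a, a', b, k, rfl, ha, hb⟩ := exists_data hx h0
  let θ : (Fin 5 → ℂ) →ₗ[ℂ] (Fin 5 → ℂ) × ℂ :=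
    (LinearMap.id - (LinearMap.single ℂ (fun _ => ℂ) k).comp (LinearMap.proj k)).prod
      (LinearMap.proj k)
  have hθ : ∀ w, θ w = (w - Pi.single k (w k), w k) := fun w => rfl
  have hx' : ∀ c : ℂ, c • tens a b = tp a a' b (c • b, 0) := fun c => funext fun p => by
    simp [tp, tens, mul_left_comm]
  refine ⟨(tp a a' b).comp θ, (tp_injective ha hb).comp ?_, ?_, ?_⟩
  · refine (injective_iff_map_eq_zero _).2 fun w hw => ?_
    rw [hθ, Prod.mk_eq_zero] at hw
    simpa [hw.2] using hw.1
  · refine Submodule.disjoint_def.2 ?_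
    rintro _ ⟨w, rfl⟩ hw
    obtain ⟨c, hc⟩ := Submodule.mem_span_singleton.1 hw
    rw [← hc]
    rw [hx'] at hc
    have h1 := congrFun (congrArg Prod.fst (tp_injective ha hb hc)) k
    rw [hθ] at h1
    have h2 : c = 0 := by simpa [hb] using h1
    simp [h2]
  · rw [tangent_eq ha hb]
    refine le_antisymm (sup_le ?_ ?_) ?_
    · rintro _ ⟨w, rfl⟩
      exact ⟨_, rfl⟩
    · rw [Submodule.span_singleton_le_iff_mem]
      exact ⟨(b, 0), by simpa using (hx' 1).symm⟩
    · rintro _ ⟨⟨β, c⟩, rfl⟩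
      refine Submodule.mem_sup.2 ⟨_, ⟨β - (β k / b k) • b + Pi.single k c, rfl⟩, (β k / b k) • tens a b,
        Submodule.smul_mem _ _ (Submodule.mem_span_singleton_self _), ?_⟩
      rw [hx', LinearMap.comp_apply, ← map_add, hθ]
      have h1 : (β - (β k / b k) • b + Pi.single k c : Fin 5 → ℂ) k = c := by
        simp [div_mul_cancel₀ _ hb]
      rw [h1]
      congr 1
      simp

theorem lines_eq {x : Fin 2 × Fin 5 → ℂ} (hx : x ∈ segre) (h0 : x ≠ 0)
    {φ : (Fin 5 → ℂ) →ₗ[ℂ] (Fin 2 × Fin 5 → ℂ)} (hφ : IsFrame segre x φ) :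
    ∃ (l : (Fin 5 → ℂ) →ₗ[ℂ] ℂ) (w₀ : Fin 5 → ℂ), l w₀ = 1 ∧
      ∀ w, w ∈ lines segre x φ ↔ l w = 0 ∨ ∃ c : ℂ, w = c • w₀ := by
  obtain ⟨a, a', b, k, rfl, ha, hb⟩ := exists_data hx h0
  obtain ⟨hinj, hdis, hsup⟩ := hφ
  rw [tangent_eq ha hb] at hsup
  obtain ⟨ρ, hρ⟩ := (tp a a' b).exists_leftInverse_of_injective
    (LinearMap.ker_eq_bot.2 (tp_injective ha hb))
  have hρ' : ∀ q, ρ (tp a a' b q) = q := fun q => LinearMap.congr_fun hρ q
  have hφ' : ∀ w, tp a a' b (ρ (φ w)) = φ w := fun w => by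
    obtain ⟨q, hq⟩ : φ w ∈ LinearMap.range (tp a a' b) :=
      hsup ▸ Submodule.mem_sup_left ⟨w, rfl⟩
    rw [← hq, hρ']
  have hx' : ∀ c : ℂ, c • tens a b = tp a a' b (c • b, 0) := fun c => funext fun p => by
    simp [tp, tens, mul_left_comm]
  have h1 : tp a a' b (0, 1) ∈ LinearMap.range φ ⊔ (ℂ ∙ tens a b) := hsup ▸ ⟨_, rfl⟩
  obtain ⟨_, ⟨w₀, rfl⟩, y, hy, hw₀⟩ := Submodule.mem_sup.1 h1
  obtain ⟨lam, rfl⟩ := Submodule.mem_span_singleton.1 hy
  have h2 : ρ (φ w₀) = (-lam • b, 1) := by
    have := congrArg ρ hw₀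
    rw [map_add, hx', hρ', hρ'] at this
    rw [eq_sub_of_add_eq this]
    simp
  refine ⟨(LinearMap.snd ℂ _ _).comp (ρ.comp φ), w₀, by simp [h2], fun w => ?_⟩
  have h3 : w ∈ lines segre (tens a b) φ ↔
      (ρ (φ w)).2 = 0 ∨ ∃ μ : ℂ, (ρ (φ w)).1 = μ • b := by
    rw [← line_iff ha hb, Prod.mk.eta, hφ']
    rfl
  rw [h3]
  refine or_congr Iff.rfl ⟨?_, ?_⟩
  · rintro ⟨μ, hμ⟩
    refine ⟨(ρ (φ w)).2, sub_eq_zero.1 (hinj ?_)⟩
    rw [map_zero]
    refine Submodule.disjoint_def.1 hdis _ ⟨_, rfl⟩ (Submodule.mem_span_singleton.2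
      ⟨μ + (ρ (φ w)).2 * lam, ?_⟩)
    rw [hx', ← hφ' (w - (ρ (φ w)).2 • w₀)]
    refine congrArg (tp a a' b) ?_
    rw [map_sub, map_smul, map_sub, map_smul, h2]
    refine Prod.ext ?_ (by simp)
    simp only [Prod.fst_sub, Prod.smul_fst, hμ, add_smul, smul_smul]
    simp
  · rintro ⟨c, rfl⟩
    refine ⟨c * -lam, ?_⟩
    rw [map_smul, map_smul, h2]
    simp [smul_smul]

end Pool.Agent.MP_429080_ag
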