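import Pool.Agent.MP_429080_ag.CI.Main

namespace Pool.Agent.Results.MP_429080_ag.ThreeCodim

open Pool.Agent.MP_429080_ag MvPolynomial

/-- Let `X` be smooth, irreducible and non-degenerate of dimension `n`, and let the variety of lines
through a general point be irreducible and non-degenerate of codimension `k` in the projective
tangent space. If `3 k + 1 ≤ n` and `4 k ≤ n + 1`, it is a complete intersection. -/
theorem result {σ : Type} [Fintype σ] (C : Set (σ → ℂ)) (n k : ℕ) (hC : IsSmoothCone C n)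
    (hs : Submodule.span ℂ C = ⊤)
    (hL : General C fun x => ∀ φ : (Fin n → ℂ) →ₗ[ℂ] (σ → ℂ), IsFrame C x φ →
      (vanishingIdeal ℂ (lines C x φ)).IsPrime ∧ affDim (lines C x φ) + k = n ∧
        Submodule.span ℂ (lines C x φ) = ⊤)
    (h3 : 3 * k + 1 ≤ n) (h4 : 4 * k ≤ n + 1) :
    General C fun x => ∀ φ : (Fin n → ℂ) →ₗ[ℂ] (σ → ℂ), IsFrame C x φ → IsCI (lines C x φ) k :=
  (H26.thmA rfl hC hs hL h3 h4).2

end Pool.Agent.Results.MP_429080_ag.ThreeCodim
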